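import Mathlib

set_option autoImplicit false

/-!
# Holomorphic Cartan geometries on compact Kähler manifolds: definitions

All complex manifolds are modelled on a finite dimensional complex normed space `V`, with charts
into `V` and complex analytic changes of charts (`IsManifold 𝓘(ℂ, V) ω`).
-/

open scoped Manifold ContDiff Topology
open Set

namespace Pool.Agent.H194R3.Cartan

/-! ### Kähler forms -/

section Kahler

variable (V : Type) [NormedAddCommGroup V] [NormedSpace ℂ V]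
  (M : Type) [TopologicalSpace M] [ChartedSpace V M]

/-- Fields of real bilinear forms on the tangent spaces of the complex manifold `M`. -/
abbrev BilinField : Type :=
  (p : M) → TangentSpace 𝓘(ℂ, V) p →L[ℝ] TangentSpace 𝓘(ℂ, V) p →L[ℝ] ℝ

variable {V M}

/-- The field of bilinear forms `B` written in the preferred chart `φ` at `p`: at the point `y` of
`V` it is the pull-back of `B` by `φ⁻¹`. -/
noncomputable def formInChart (B : BilinField V M) (p : M) (y : V) : V →L[ℝ] V →L[ℝ] ℝ :=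
  let b : V →L[ℝ] V →L[ℝ] ℝ := B ((extChartAt 𝓘(ℂ, V) p).symm y)
  let D : V →L[ℂ] V := mfderiv 𝓘(ℂ, V) 𝓘(ℂ, V) (extChartAt 𝓘(ℂ, V) p).symm y
  b.bilinearComp (D.restrictScalars ℝ) (D.restrictScalars ℝ)

variable (V M)

/-- A Kähler form on the complex manifold `M`: a smooth closed real 2-form of type `(1,1)` which is
positive, that is, `form (v, i v) > 0` for all nonzero tangent vectors `v`. Smoothness and
closedness are expressed in charts. -/
structure KahlerForm where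
  /-- the form -/
  form : BilinField V M
  /-- it is alternating -/
  alternating : ∀ (p : M) (v : TangentSpace 𝓘(ℂ, V) p), form p v v = 0
  /-- it is of type `(1,1)` -/
  type_one_one : ∀ (p : M) (v w : TangentSpace 𝓘(ℂ, V) p),
    form p (Complex.I • v) (Complex.I • w) = form p v w
  /-- it is positive -/
  positive : ∀ (p : M) (v : TangentSpace 𝓘(ℂ, V) p), v ≠ 0 → 0 < form p v (Complex.I • v)
  /-- it is smooth -/
  smooth : ∀ p : M, ContDiffOn ℝ ∞ (formInChart form p) (extChartAt 𝓘(ℂ, V) p).target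
  /-- it is closed: the cyclic sum `(d form) (a, b, c)` vanishes -/
  closed : ∀ p : M, ∀ y ∈ (extChartAt 𝓘(ℂ, V) p).target, ∀ a b c : V,
    fderiv ℝ (formInChart form p) y a b c + fderiv ℝ (formInChart form p) y b c a
      + fderiv ℝ (formInChart form p) y c a b = 0

end Kahler

/-! ### Complex Lie groups and homogeneous spaces -/

section Groups

variable (𝔤 : Type) [NormedAddCommGroup 𝔤] [NormedSpace ℂ 𝔤]
  {G : Type} [TopologicalSpace G] [ChartedSpace 𝔤 G] [Group G]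
  (𝔥 : Type) [NormedAddCommGroup 𝔥] [NormedSpace ℂ 𝔥]
  {H : Type} [TopologicalSpace H] [ChartedSpace 𝔥 H] [Group H]

/-- The Lie algebra `T_1 G` of the complex Lie group `G`. -/
abbrev LieAlg (G : Type) [TopologicalSpace G] [ChartedSpace 𝔤 G] [Group G] : Type :=
  GroupLieAlgebra 𝓘(ℂ, 𝔤) G

/-- The adjoint representation: `Ad g` is the derivative at `1` of the conjugation
`x ↦ g x g⁻¹`. -/
noncomputable def Ad (g : G) : LieAlg 𝔤 G →L[ℂ] LieAlg 𝔤 G :=
  (mfderiv 𝓘(ℂ, 𝔤) 𝓘(ℂ, 𝔤) (fun x : G => g * x * g⁻¹) 1 : 𝔤 →L[ℂ] 𝔤)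

/-- The complex Lie group `H` is, via the homomorphism `ι`, a closed complex Lie subgroup
of `G`. -/
structure IsClosedComplexSubgroup (ι : H →* G) : Prop where
  holomorphic : ContMDiff 𝓘(ℂ, 𝔥) 𝓘(ℂ, 𝔤) ω ι
  isClosedEmbedding : Topology.IsClosedEmbedding ι
  injective_mfderiv : Function.Injective (mfderiv 𝓘(ℂ, 𝔥) 𝓘(ℂ, 𝔤) ι 1)

variable (𝔵 : Type) [NormedAddCommGroup 𝔵] [NormedSpace ℂ 𝔵]
  {X : Type} [TopologicalSpace X] [ChartedSpace 𝔵 X] [MulAction G X]

/-- The complex manifold `X` with its action of `G` and its base point `x₀` is the complex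
homogeneous space `G/H`: the action is holomorphic and transitive, the stabilizer of `x₀` is `H`
and the orbit map `g ↦ g x₀` is a submersion. -/
structure IsHomogeneousSpace (ι : H →* G) (x₀ : X) : Prop where
  holomorphic : ContMDiff (𝓘(ℂ, 𝔤).prod 𝓘(ℂ, 𝔵)) 𝓘(ℂ, 𝔵) ω (fun p : G × X => p.1 • p.2)
  transitive : ∀ x : X, ∃ g : G, g • x₀ = x
  stabilizer : ∀ g : G, g • x₀ = x₀ ↔ g ∈ ι.range
  submersion : Function.Surjective (mfderiv 𝓘(ℂ, 𝔤) 𝓘(ℂ, 𝔵) (fun g : G => g • x₀) 1)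

variable (𝔪 : Type) [NormedAddCommGroup 𝔪] [NormedSpace ℂ 𝔪]
  (M : Type) [TopologicalSpace M] [ChartedSpace 𝔪 M]
  (𝔢 : Type) [NormedAddCommGroup 𝔢] [NormedSpace ℂ 𝔢]
  (E : Type) [TopologicalSpace E] [ChartedSpace 𝔢 E] [IsManifold 𝓘(ℂ, 𝔢) ω E]

/-- A holomorphic Cartan geometry on `M` modelled on `G/H`, where `H` is a closed complex subgroup
of `G` via `ι`, with total space `E`: a holomorphic principal right `H`-bundle `π : E → M`
together with a holomorphic 1-form `form` on `E` with values in the Lie algebra of `G`, such that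
* `form` is a linear isomorphism on each tangent space of `E`,
* `r_h^* form = Ad (h)⁻¹ form` for all `h` in `H`, where `r_h` is the right action of `h`,
* `form` takes the value `A` on the fundamental vector field of `A`, for all `A` in the Lie algebra
  of `H`. -/
structure CartanGeometry (ι : H →* G) where
  /-- the projection of the bundle -/
  π : E → M
  /-- the right action of the structure group -/
  act : E → H → E
  π_holomorphic : ContMDiff 𝓘(ℂ, 𝔢) 𝓘(ℂ, 𝔪) ω π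
  act_holomorphic : ContMDiff (𝓘(ℂ, 𝔢).prod 𝓘(ℂ, 𝔥)) 𝓘(ℂ, 𝔢) ω (fun p : E × H => act p.1 p.2)
  act_one : ∀ e, act e 1 = e
  act_mul : ∀ e a b, act e (a * b) = act (act e a) b
  /-- `E` is locally trivial: over some neighbourhood `U` of each point of `M`, it is isomorphic
  to `U × H` -/
  locally_trivial : ∀ x : M, ∃ (U : Set M) (φ : OpenPartialHomeomorph (M × H) E),
    IsOpen U ∧ x ∈ U ∧ φ.source = U ×ˢ univ ∧ φ.target = π ⁻¹' U ∧
    ContMDiffOn (𝓘(ℂ, 𝔪).prod 𝓘(ℂ, 𝔥)) 𝓘(ℂ, 𝔢) ω φ φ.source ∧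
    ContMDiffOn 𝓘(ℂ, 𝔢) (𝓘(ℂ, 𝔪).prod 𝓘(ℂ, 𝔥)) ω φ.symm φ.target ∧
    (∀ u ∈ U, ∀ a, π (φ (u, a)) = u) ∧ (∀ u ∈ U, ∀ a b, φ (u, a * b) = act (φ (u, a)) b)
  /-- the Cartan connection -/
  form : (e : E) → TangentSpace 𝓘(ℂ, 𝔢) e →L[ℂ] LieAlg 𝔤 G
  form_holomorphic : ContMDiff (M' := 𝔤) 𝓘(ℂ, 𝔢).tangent 𝓘(ℂ, 𝔤) ω
    (fun v : TangentBundle 𝓘(ℂ, 𝔢) E => form v.1 v.2)
  form_bijective : ∀ e, Function.Bijective (form e)
  form_act : ∀ (h : H) (e : E) (v : TangentSpace 𝓘(ℂ, 𝔢) e),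
    form (act e h) (mfderiv 𝓘(ℂ, 𝔢) 𝓘(ℂ, 𝔢) (fun e' => act e' h) e v) =
      Ad 𝔤 (ι h)⁻¹ (form e v)
  form_fundamental : ∀ (e : E) (A : LieAlg 𝔥 H),
    form (act e 1) (mfderiv 𝓘(ℂ, 𝔥) 𝓘(ℂ, 𝔢) (fun h => act e h) 1 A) =
      (mfderiv 𝓘(ℂ, 𝔥) 𝓘(ℂ, 𝔤) ι 1 A : 𝔤)

/-- `Γ` is a cocompact lattice in the subgroup `G'` of `G`. -/
def IsCocompactLattice (G' Γ : Subgroup G) : Prop :=
  Γ ≤ G' ∧ DiscreteTopology Γ ∧ CompactSpace (G' ⧸ Γ.subgroupOf G')

variable (X)

/-- The complex manifold `M` is biholomorphic to the quotient `Γ\U` of the open subset `U` of `X`: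
there is a surjective holomorphic map `q : U → M`, locally biholomorphic, whose fibres are the
orbits of `Γ`. -/
def IsBiholomorphicToQuotient (Γ : Subgroup G) (U : Set X) : Prop :=
  ∃ q : X → M, q '' U = univ ∧ IsLocalDiffeomorphOn 𝓘(ℂ, 𝔵) 𝓘(ℂ, 𝔪) ω q U ∧
    ∀ x ∈ U, ∀ y ∈ U, q x = q y ↔ ∃ γ ∈ Γ, γ • x = y

end Groups

end Pool.Agent.H194R3.Cartan
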