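import Mathlib

set_option autoImplicit false

/-! # The simply connected complex affine group of the line -/

open scoped Manifold ContDiff Topology
open Set

namespace Pool.Agent.H194R3.Cartan

/-- Pairs `(t, b)` of complex numbers with `(t, b) (t', b') = (t + t', b + e^t b')`: the universal
covering group of the group of affine maps `z ↦ e^t z + b` of the complex line. -/
def AffG : Type := ℂ × ℂ

namespace AffG

noncomputable instance : TopologicalSpace AffG := inferInstanceAs (TopologicalSpace (ℂ × ℂ))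
instance : T2Space AffG := inferInstanceAs (T2Space (ℂ × ℂ))
instance : SecondCountableTopology AffG := inferInstanceAs (SecondCountableTopology (ℂ × ℂ))
instance : ConnectedSpace AffG := inferInstanceAs (ConnectedSpace (ℂ × ℂ))
instance : SimplyConnectedSpace AffG := inferInstanceAs (SimplyConnectedSpace (ℂ × ℂ))
noncomputable instance : ChartedSpace (ℂ × ℂ) AffG :=
  inferInstanceAs (ChartedSpace (ℂ × ℂ) (ℂ × ℂ))

/-- the linear part -/
def t (p : AffG) : ℂ := Prod.fst p
/-- the translation part -/
def b (p : AffG) : ℂ := Prod.snd p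
/-- the element with given coordinates -/
def mk (t b : ℂ) : AffG := (t, b)

@[ext] theorem ext {p q : AffG} (h1 : p.t = q.t) (h2 : p.b = q.b) : p = q := Prod.ext h1 h2

@[simp] theorem mk_t (x y : ℂ) : (mk x y).t = x := rfl
@[simp] theorem mk_b (x y : ℂ) : (mk x y).b = y := rfl

noncomputable instance : Group AffG where
  mul p q := mk (p.t + q.t) (p.b + Complex.exp p.t * q.b)
  one := mk 0 0
  inv p := mk (-p.t) (-(Complex.exp (-p.t) * p.b))
  mul_assoc p q r := by
    apply ext
    · change p.t + q.t + r.t = p.t + (q.t + r.t); ring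
    · change (p.b + Complex.exp p.t * q.b) + Complex.exp (p.t + q.t) * r.b =
        p.b + Complex.exp p.t * (q.b + Complex.exp q.t * r.b)
      rw [Complex.exp_add]; ring
  one_mul p := by
    apply ext
    · change 0 + p.t = p.t; ring
    · change 0 + Complex.exp 0 * p.b = p.b; simp
  mul_one p := by
    apply ext
    · change p.t + 0 = p.t; ring
    · change p.b + Complex.exp p.t * 0 = p.b; ring
  inv_mul_cancel p := by
    apply ext
    · change -p.t + p.t = 0; ring
    · change -(Complex.exp (-p.t) * p.b) + Complex.exp (-p.t) * p.b = 0; ring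

@[simp] theorem mul_t (p q : AffG) : (p * q).t = p.t + q.t := rfl
@[simp] theorem mul_b (p q : AffG) : (p * q).b = p.b + Complex.exp p.t * q.b := rfl
@[simp] theorem one_t : (1 : AffG).t = 0 := rfl
@[simp] theorem one_b : (1 : AffG).b = 0 := rfl
@[simp] theorem inv_t (p : AffG) : (p⁻¹).t = -p.t := rfl
@[simp] theorem inv_b (p : AffG) : (p⁻¹).b = -(Complex.exp (-p.t) * p.b) := rfl

theorem continuous_t : Continuous AffG.t := (continuous_fst : Continuous (Prod.fst : ℂ × ℂ → ℂ))
theorem continuous_b : Continuous AffG.b := (continuous_snd : Continuous (Prod.snd : ℂ × ℂ → ℂ))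
theorem continuous_mk : Continuous (fun p : ℂ × ℂ => mk p.1 p.2) :=
  (continuous_id : Continuous (fun p : ℂ × ℂ => p))

instance : LieGroup 𝓘(ℂ, ℂ × ℂ) ω AffG where
  toIsManifold := inferInstanceAs (IsManifold 𝓘(ℂ, ℂ × ℂ) ω (ℂ × ℂ))
  contMDiff_mul := by
    rw [← modelWithCornersSelf_prod]
    have h : ContDiff ℂ ω (fun p : (ℂ × ℂ) × (ℂ × ℂ) =>
        ((p.1.1 + p.2.1, p.1.2 + Complex.exp p.1.1 * p.2.2) : ℂ × ℂ)) := by
      fun_prop
    have h2 := h.contMDiff
    rw [← chartedSpaceSelf_prod] at h2
    exact h2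
  contMDiff_inv := by
    have h : ContDiff ℂ ω (fun p : (ℂ × ℂ) =>
        ((-p.1, -(Complex.exp (-p.1) * p.2)) : ℂ × ℂ)) := by
      fun_prop
    exact h.contMDiff

instance : IsTopologicalGroup AffG := topologicalGroup_of_lieGroup 𝓘(ℂ, ℂ × ℂ) ω

/-! ### the affine action on the line -/

/-- the affine action -/
noncomputable def aff (p : AffG) (z : ℂ) : ℂ := Complex.exp p.t * z + p.b

lemma aff_mul (p q : AffG) (z : ℂ) : aff (p * q) z = aff p (aff q z) := by
  simp only [aff, mul_t, mul_b, Complex.exp_add]; ring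

lemma aff_one (z : ℂ) : aff 1 z = z := by simp [aff]

lemma continuous_aff (z : ℂ) : Continuous (fun p : AffG => aff p z) := by
  unfold aff
  exact ((Complex.continuous_exp.comp continuous_t).mul continuous_const).add continuous_b

/-- A discrete subgroup with compact quotient does not exist. -/
theorem no_cocompact_discrete (Γ : Subgroup AffG) [DiscreteTopology Γ]
    (hc : CompactSpace (AffG ⧸ Γ)) : False := by
  -- an element of `Γ` with expanding linear part
  have h1 : ∃ γ ∈ Γ, 0 < γ.t.re := by
    by_contra hcon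
    push Not at hcon
    have h0 : ∀ γ ∈ Γ, γ.t.re = 0 := by
      intro γ hγ
      have h2 := hcon γ hγ
      have h3 := hcon γ⁻¹ (inv_mem hγ)
      simp only [inv_t, Complex.neg_re] at h3
      linarith
    let f : AffG ⧸ Γ → ℝ := Quotient.lift (fun g : AffG => g.t.re) (by
      intro a b' hab
      have h4 : a⁻¹ * b' ∈ Γ := QuotientGroup.leftRel_apply.1 hab
      have h5 := h0 _ h4
      simp only [mul_t, inv_t, Complex.add_re, Complex.neg_re] at h5
      linarith)
    have hf : Continuous f := Continuous.quotient_lift (Complex.continuous_re.comp continuous_t) _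
    have hs : Function.Surjective f := by
      intro r
      exact ⟨(mk r 0 : AffG), by change (mk (r : ℂ) 0).t.re = r; simp⟩
    have : CompactSpace ℝ := hs.compactSpace hf
    exact not_compactSpace_iff.2 inferInstance this
  obtain ⟨γ, hγ, hre⟩ := h1
  set a := Complex.exp γ.t with ha
  have ha1 : 1 < ‖a‖ := by
    rw [ha, Complex.norm_exp]
    exact Real.one_lt_exp_iff.2 hre
  have ha0 : a ≠ 0 := Complex.exp_ne_zero _
  have ha2 : a ≠ 1 := by
    intro h
    rw [h] at ha1
    simp at ha1
  -- the fixed point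
  set z₀ : ℂ := γ.b / (1 - a) with hz₀
  have hfix : aff γ z₀ = z₀ := by
    have : (1 - a) ≠ 0 := sub_ne_zero.2 (Ne.symm ha2)
    rw [aff, ← ha, hz₀]
    field_simp
    ring
  have hexp : ∀ z, aff γ z = z₀ + a * (z - z₀) := by
    intro z
    have : aff γ z - aff γ z₀ = a * (z - z₀) := by simp only [aff, ← ha]; ring
    rw [hfix] at this
    linear_combination this
  have hinv : ∀ z, aff γ⁻¹ z = z₀ + a⁻¹ * (z - z₀) := by
    intro z
    have h2 : aff γ (aff γ⁻¹ z) = z := by rw [← aff_mul, mul_inv_cancel, aff_one]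
    rw [hexp] at h2
    field_simp
    linear_combination h2
  have hpow : ∀ (n : ℕ) z, aff (γ⁻¹ ^ n) z = z₀ + a⁻¹ ^ n * (z - z₀) := by
    intro n
    induction n with
    | zero => intro z; simp [aff_one]
    | succ n ih => intro z; rw [pow_succ, aff_mul, hinv, ih]; ring
  have hpow2 : ∀ (n : ℕ), aff (γ ^ n) z₀ = z₀ := by
    intro n
    induction n with
    | zero => simp [aff_one]
    | succ n ih => rw [pow_succ, aff_mul, hfix, ih]
  have htpow : ∀ (n : ℕ) (g : AffG), (g ^ n).t = n * g.t := by
    intro n g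
    induction n with
    | zero => simp
    | succ n ih => rw [pow_succ, mul_t, ih]; push_cast; ring
  -- every element of `Γ` fixes `z₀`
  have hall : ∀ δ ∈ Γ, aff δ z₀ = z₀ := by
    intro δ hδ
    set s : ℕ → AffG := fun n => γ⁻¹ ^ n * δ * γ ^ n with hs
    have hst : ∀ n, (s n).t = δ.t := by
      intro n
      simp only [hs, mul_t, htpow, inv_t]
      ring
    have hsa : ∀ n, aff (s n) z₀ = z₀ + a⁻¹ ^ n * (aff δ z₀ - z₀) := by
      intro n
      rw [hs]
      simp only
      rw [aff_mul, aff_mul, hpow2, hpow]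
    have hsb : ∀ n, (s n).b = z₀ + a⁻¹ ^ n * (aff δ z₀ - z₀) - Complex.exp δ.t * z₀ := by
      intro n
      rw [← hsa, aff, hst]
      ring
    have hlim0 : Filter.Tendsto (fun n : ℕ => a⁻¹ ^ n) Filter.atTop (𝓝 0) := by
      apply tendsto_pow_atTop_nhds_zero_of_norm_lt_one
      rw [norm_inv]
      exact inv_lt_one_of_one_lt₀ ha1
    have hlim : Filter.Tendsto s Filter.atTop (𝓝 (mk δ.t (z₀ - Complex.exp δ.t * z₀))) := by
      have h3 : Filter.Tendsto (fun n : ℕ => ((δ.t, z₀ + a⁻¹ ^ n * (aff δ z₀ - z₀) -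
          Complex.exp δ.t * z₀) : ℂ × ℂ)) Filter.atTop
          (𝓝 (δ.t, z₀ - Complex.exp δ.t * z₀)) := by
        apply Filter.Tendsto.prodMk_nhds tendsto_const_nhds
        have h4 := ((hlim0.mul_const (aff δ z₀ - z₀)).const_add z₀).sub_const
          (Complex.exp δ.t * z₀)
        simpa using h4
      have h5 : s = fun n => mk δ.t (z₀ + a⁻¹ ^ n * (aff δ z₀ - z₀) - Complex.exp δ.t * z₀) := by
        ext n
        · exact hst n
        · exact hsb n
      rw [h5]
      exact (continuous_mk.tendsto _).comp h3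
    have hmem : ∀ n, s n ∈ Γ := fun n =>
      mul_mem (mul_mem (pow_mem (inv_mem hγ) n) hδ) (pow_mem hγ n)
    have hclosed : IsClosed (Γ : Set AffG) := Subgroup.isClosed_of_discrete
    have hl : mk δ.t (z₀ - Complex.exp δ.t * z₀) ∈ Γ :=
      hclosed.mem_of_tendsto hlim (Filter.Eventually.of_forall hmem)
    have hlim2 : Filter.Tendsto (fun n => (⟨s n, hmem n⟩ : Γ)) Filter.atTop (𝓝 ⟨_, hl⟩) :=
      tendsto_subtype_rng.2 hlim
    rw [nhds_discrete] at hlim2
    have hev : ∀ᶠ n in Filter.atTop, (⟨s n, hmem n⟩ : Γ) = ⟨_, hl⟩ := by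
      simpa [Filter.tendsto_pure] using hlim2
    obtain ⟨n, hn⟩ := hev.exists
    have h6 : s n = mk δ.t (z₀ - Complex.exp δ.t * z₀) := congrArg Subtype.val hn
    have h7 : (s n).b = z₀ - Complex.exp δ.t * z₀ := by rw [h6]; rfl
    rw [hsb] at h7
    have h8 : a⁻¹ ^ n * (aff δ z₀ - z₀) = 0 := by linear_combination h7
    have h9 : a⁻¹ ^ n ≠ 0 := pow_ne_zero _ (inv_ne_zero ha0)
    exact sub_eq_zero.1 ((mul_eq_zero.1 h8).resolve_left h9)
  -- so `ℂ` is compact
  let f : AffG ⧸ Γ → ℂ := Quotient.lift (fun g : AffG => aff g z₀) (by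
    intro p q hpq
    have h4 : p⁻¹ * q ∈ Γ := QuotientGroup.leftRel_apply.1 hpq
    have h5 := hall _ h4
    have h6 : q = p * (p⁻¹ * q) := by group
    change aff p z₀ = aff q z₀
    rw [h6, aff_mul, h5])
  have hf : Continuous f := Continuous.quotient_lift (continuous_aff z₀) _
  have hs : Function.Surjective f := by
    intro w
    refine ⟨(mk 0 (w - z₀) : AffG), ?_⟩
    change aff (mk 0 (w - z₀)) z₀ = w
    simp [aff]
  have : CompactSpace ℂ := hs.compactSpace hf
  exact not_compactSpace_iff.2 inferInstance this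

/-- A subgroup with an open orbit for the action by left translations is the whole group. -/
theorem eq_top_of_open_orbit (G' : Subgroup AffG) (x : AffG)
    (h : IsOpen (MulAction.orbit G' x)) : G' = ⊤ := by
  have h1 : (G' : Set AffG) = (fun g : AffG => g * x) ⁻¹' (MulAction.orbit G' x) := by
    ext g
    simp only [SetLike.mem_coe, mem_preimage, MulAction.mem_orbit_iff]
    constructor
    · intro hg
      exact ⟨⟨g, hg⟩, rfl⟩
    · rintro ⟨⟨k, hk⟩, hk2⟩
      have hk3 : k * x = g * x := hk2
      rw [← mul_right_cancel hk3]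
      exact hk
  have h2 : IsOpen (G' : Set AffG) := by
    rw [h1]
    exact h.preimage (continuous_mul_const x)
  have h3 : IsClosed (G' : Set AffG) := G'.isClosed_of_isOpen h2
  have h4 : (G' : Set AffG) = univ := IsClopen.eq_univ ⟨h3, h2⟩ ⟨1, G'.one_mem⟩
  exact SetLike.coe_injective (by simpa using h4)

end AffG

end Pool.Agent.H194R3.Cartan
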