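import Mathlib

set_option autoImplicit false
set_option linter.unusedSectionVars false

/-! # Complex tori as complex manifolds -/

open scoped Manifold ContDiff Topology
open Set

namespace Pool.Agent.H194R3.Cartan

variable {V : Type} [NormedAddCommGroup V] [NormedSpace ℂ V]

/-- The quotient of `V` by a discrete subgroup. -/
def Torus (Λ : AddSubgroup V) : Type := V ⧸ Λ

namespace Torus

variable (Λ : AddSubgroup V)

instance : TopologicalSpace (Torus Λ) := inferInstanceAs (TopologicalSpace (V ⧸ Λ))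

/-- the projection -/
def proj (v : V) : Torus Λ := (QuotientAddGroup.mk v : V ⧸ Λ)

lemma proj_surjective : Function.Surjective (proj Λ) := QuotientAddGroup.mk_surjective

lemma proj_eq_iff {u v : V} : proj Λ u = proj Λ v ↔ v - u ∈ Λ := by
  rw [sub_eq_neg_add]
  exact QuotientAddGroup.eq

/-- a section of the projection -/
noncomputable def sec : Torus Λ → V := (proj_surjective Λ).hasRightInverse.choose

lemma proj_sec (q : Torus Λ) : proj Λ (sec Λ q) = q :=
  (proj_surjective Λ).hasRightInverse.choose_spec q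

variable [DiscreteTopology Λ]

lemma isLocalHomeomorph : IsLocalHomeomorph (proj Λ) :=
  (Λ.isAddQuotientCoveringMap_of_comm DiscreteTopology.isDiscrete).isCoveringMap.isLocalHomeomorph

noncomputable instance : ChartedSpace V (Torus Λ) :=
  (isLocalHomeomorph Λ).chartedSpaceOfRightInverse (proj_sec Λ)

lemma chart_symm {e : OpenPartialHomeomorph (Torus Λ) V} (he : e ∈ atlas V (Torus Λ)) (v : V) :
    e.symm v = proj Λ v := by
  obtain ⟨q, rfl⟩ := he
  simp only [OpenPartialHomeomorph.trans_symm_eq_symm_trans_symm, OpenPartialHomeomorph.coe_trans,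
    Function.comp_apply, IsLocalHomeomorph.localInverseAt_symm]
  rfl

lemma key {e : OpenPartialHomeomorph (Torus Λ) V} (he : e ∈ atlas V (Torus Λ)) {v : V}
    (hv : proj Λ v ∈ e.source) : ∃ w : V, ∀ᶠ u in 𝓝 v, e (proj Λ u) = u + w := by
  refine ⟨e (proj Λ v) - v, ?_⟩
  have h1 : e (proj Λ v) - v ∈ Λ := by
    rw [← proj_eq_iff, ← chart_symm Λ he (e (proj Λ v)), e.left_inv hv]
  have h2 : ∀ᶠ u in 𝓝 v, u + (e (proj Λ v) - v) ∈ e.target := by
    have hc : ContinuousAt (fun u : V => u + (e (proj Λ v) - v)) v := by fun_prop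
    apply hc.preimage_mem_nhds
    apply e.open_target.mem_nhds
    rw [add_sub_cancel]
    exact e.map_source hv
  filter_upwards [h2] with u hu
  have h3 : proj Λ u = proj Λ (u + (e (proj Λ v) - v)) := by
    rw [proj_eq_iff, add_sub_cancel_left]
    exact h1
  rw [h3, ← chart_symm Λ he, e.right_inv hu]

lemma continuous_proj : Continuous (proj Λ) := (isLocalHomeomorph Λ).continuous

instance : IsManifold 𝓘(ℂ, V) ω (Torus Λ) := by
  apply isManifold_of_contDiffOn
  intro e e' he he' v hv
  simp only [modelWithCornersSelf_coe, modelWithCornersSelf_coe_symm, preimage_id_eq, id_eq,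
    range_id, inter_univ, OpenPartialHomeomorph.coe_trans, Function.comp_def] at hv ⊢
  have hv2 : proj Λ v ∈ e'.source := by
    have := hv.2
    rwa [mem_preimage, OpenPartialHomeomorph.symm_symm, chart_symm Λ he] at this
  obtain ⟨w, hw⟩ := key Λ he' hv2
  apply ContDiffAt.contDiffWithinAt
  have h2 : (fun x => e' (e.symm x)) = fun x => e' (proj Λ x) := by
    ext x; rw [chart_symm Λ he]
  rw [h2]
  exact (contDiffAt_id.add contDiffAt_const).congr_of_eventuallyEq hw

lemma extChartAt_symm (q : Torus Λ) : ⇑(extChartAt 𝓘(ℂ, V) q).symm = proj Λ := by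
  ext v
  simp only [mfld_simps]
  exact chart_symm Λ (chart_mem_atlas V q) v

lemma hasMFDerivAt_proj (v : V) :
    HasMFDerivAt 𝓘(ℂ, V) 𝓘(ℂ, V) (proj Λ) v (ContinuousLinearMap.id ℂ V) := by
  refine ⟨(continuous_proj Λ).continuousAt, ?_⟩
  simp only [writtenInExtChartAt, mfld_simps]
  obtain ⟨w, hw⟩ := key Λ (chart_mem_atlas V (proj Λ v)) (mem_chart_source V (proj Λ v))
  have h1 : HasFDerivAt (fun u : V => u + w) (ContinuousLinearMap.id ℂ V) v :=
    (hasFDerivAt_id v).add_const w
  exact (h1.congr_of_eventuallyEq hw).hasFDerivWithinAt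

lemma mfderiv_extChartAt_symm (q : Torus Λ) (y : V) :
    mfderiv 𝓘(ℂ, V) 𝓘(ℂ, V) (extChartAt 𝓘(ℂ, V) q).symm y = ContinuousLinearMap.id ℂ V := by
  rw [extChartAt_symm]
  exact (hasMFDerivAt_proj Λ y).mfderiv

lemma contMDiff_snd :
    ContMDiff (M' := V) 𝓘(ℂ, V).tangent 𝓘(ℂ, V) ω
      (fun v : TangentBundle 𝓘(ℂ, V) (Torus Λ) => v.2) := by
  intro x₀
  have h1 : ContMDiffAt 𝓘(ℂ, V).tangent 𝓘(ℂ, V).tangent ω
      (fun v : TangentBundle 𝓘(ℂ, V) (Torus Λ) => v) x₀ := contMDiffAt_id
  rw [Bundle.contMDiffAt_totalSpace] at h1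
  refine h1.2.congr_of_eventuallyEq ?_
  have h2 : ∀ᶠ v : TangentBundle 𝓘(ℂ, V) (Torus Λ) in 𝓝 x₀,
      v.1 ∈ (chartAt V x₀.1).source := by
    have hc : ContinuousAt (fun v : TangentBundle 𝓘(ℂ, V) (Torus Λ) => v.1) x₀ :=
      (FiberBundle.continuous_proj V (TangentSpace 𝓘(ℂ, V))).continuousAt
    exact hc.preimage_mem_nhds ((chartAt V x₀.1).open_source.mem_nhds (mem_chart_source V x₀.1))
  filter_upwards [h2] with v hv
  rw [TangentBundle.trivializationAt_apply]
  set y : V := (chartAt V v.1).extend 𝓘(ℂ, V) v.1 with hy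
  have hy2 : proj Λ y = v.1 := by
    have h3 : y = chartAt V v.1 v.1 := by simp [hy]
    rw [h3, ← chart_symm Λ (chart_mem_atlas V v.1),
      (chartAt V v.1).left_inv (mem_chart_source V v.1)]
  obtain ⟨w, hw⟩ := key Λ (chart_mem_atlas V x₀.1) (v := y) (by rw [hy2]; exact hv)
  have h4 : HasFDerivAt (fun u : V => u + w) (ContinuousLinearMap.id ℂ V) y :=
    (hasFDerivAt_id y).add_const w
  have h5 : ((chartAt V x₀.1).extend 𝓘(ℂ, V) ∘ ((chartAt V v.1).extend 𝓘(ℂ, V)).symm) =
      fun u => chartAt V x₀.1 (proj Λ u) := by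
    ext u
    simp only [mfld_simps]
    rw [chart_symm Λ (chart_mem_atlas V v.1)]
  rw [h5]
  have h6 := (h4.congr_of_eventuallyEq hw).fderiv
  simp only [modelWithCornersSelf_coe, range_id, fderivWithin_univ]
  rw [h6]
  rfl

instance : T2Space (Torus Λ) := inferInstanceAs (T2Space (V ⧸ Λ))

instance [FiniteDimensional ℂ V] : SecondCountableTopology (Torus Λ) := by
  have : ProperSpace V := FiniteDimensional.proper ℂ V
  exact inferInstanceAs (SecondCountableTopology (V ⧸ Λ))

instance : ConnectedSpace (Torus Λ) :=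
  (proj_surjective Λ).connectedSpace (continuous_proj Λ)

end Torus

lemma compactSpace_torus {V : Type} [NormedAddCommGroup V] [NormedSpace ℂ V]
    [FiniteDimensional ℝ V] {ι : Type} [Finite ι] (b : Module.Basis ι ℝ V) :
    CompactSpace (Torus (Submodule.span ℤ (Set.range b)).toAddSubgroup) := by
  refine ⟨?_⟩
  have h := IsZLattice.isCompact_range_of_periodic (Submodule.span ℤ (Set.range b))
    (Torus.proj (Submodule.span ℤ (Set.range b)).toAddSubgroup) (Torus.continuous_proj _) (by
      intro z w hw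
      rw [Torus.proj_eq_iff]
      have : z - (z + w) = - w := by abel
      rw [this]
      exact neg_mem hw)
  rwa [(Torus.proj_surjective _).range_eq] at h

end Pool.Agent.H194R3.Cartan
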