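import Pool.Agent.H194R3.Cartan.Question
import Pool.Agent.H194R3.Cartan.Torus
import Pool.Agent.H194R3.Cartan.Group

set_option autoImplicit false

/-! # The counterexample -/

open scoped Manifold ContDiff Topology
open Set

namespace Pool.Agent.H194R3.Cartan

/-! ### The trivial group -/

instance : LieGroup 𝓘(ℂ, PUnit) ω PUnit where
  toIsManifold := inferInstance
  contMDiff_mul := by
    have : (fun p : PUnit × PUnit => p.1 * p.2) = fun _ => PUnit.unit := by ext
    rw [this]
    exact contMDiff_const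
  contMDiff_inv := by
    have : (fun p : PUnit => p⁻¹) = fun _ => PUnit.unit := by ext
    rw [this]
    exact contMDiff_const

/-- the inclusion of the trivial subgroup -/
noncomputable def trivialHom : PUnit →* AffG := 1

lemma isClosedComplexSubgroup_trivial :
    IsClosedComplexSubgroup (ℂ × ℂ) PUnit trivialHom where
  holomorphic := contMDiff_const
  isClosedEmbedding := by
    refine Topology.IsClosedEmbedding.of_continuous_injective_isClosedMap continuous_const ?_ ?_
    · intro a b _; rfl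
    · intro s hs
      exact (s.toFinite.image _).isClosed
  injective_mfderiv := by
    intro a b _
    exact Subsingleton.elim (α := PUnit) a b

lemma isHomogeneousSpace_affG :
    IsHomogeneousSpace (G := AffG) (X := AffG) (ℂ × ℂ) (ℂ × ℂ) trivialHom (1 : AffG) where
  holomorphic := contMDiff_mul 𝓘(ℂ, ℂ × ℂ) ω
  transitive := fun x => ⟨x, by simp⟩
  stabilizer := by
    intro g
    simp only [smul_eq_mul, mul_one, MonoidHom.mem_range]
    constructor
    · rintro rfl
      exact ⟨1, rfl⟩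
    · rintro ⟨x, rfl⟩
      rfl
  submersion := by
    have h : (fun g : AffG => g • (1 : AffG)) = id := by
      ext g <;> simp
    rw [h, mfderiv_id]
    exact fun v => ⟨v, rfl⟩

lemma not_hasP1Factor_affG : ¬ HasP1Factor (ℂ × ℂ) AffG := by
  rintro ⟨𝔶, _, _, Y, _, _, _, ⟨Φ⟩⟩
  obtain ⟨y₀⟩ : Nonempty Y := ⟨(Φ 1).2⟩
  let f : P1 → ℂ × ℂ := fun c => (Φ.symm (c, y₀) : AffG)
  have hf : ContMDiff 𝓘(ℂ, ℂ) 𝓘(ℂ, ℂ × ℂ) ω (fun c : P1 => Φ.symm (c, y₀)) :=
    Φ.symm.contMDiff.comp (contMDiff_id.prodMk contMDiff_const)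
  have hf2 : ContMDiff 𝓘(ℂ, ℂ) 𝓘(ℂ, ℂ × ℂ) ω f := hf
  have hf3 : MDifferentiable 𝓘(ℂ, ℂ) 𝓘(ℂ, ℂ × ℂ) f := hf2.mdifferentiable (by simp)
  have h1 : f (P1.coe 0) = f (P1.coe 1) := hf3.apply_eq_of_compactSpace _ _
  have h2 : (P1.coe 0, y₀) = (P1.coe 1, y₀) := Φ.symm.injective h1
  have h3 : P1.coe 0 = P1.coe 1 := congrArg Prod.fst h2
  have h4 : (0 : ℂ) = 1 := P1.isOpenEmbedding_coe.injective h3
  exact zero_ne_one h4

/-! ### The torus -/

/-- the standard symplectic form of `ℂ²` -/
noncomputable def Om : (ℂ × ℂ) →L[ℝ] (ℂ × ℂ) →L[ℝ] ℝ :=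
  let r1 : (ℂ × ℂ) →L[ℝ] ℝ := Complex.reCLM.comp (ContinuousLinearMap.fst ℝ ℂ ℂ)
  let i1 : (ℂ × ℂ) →L[ℝ] ℝ := Complex.imCLM.comp (ContinuousLinearMap.fst ℝ ℂ ℂ)
  let r2 : (ℂ × ℂ) →L[ℝ] ℝ := Complex.reCLM.comp (ContinuousLinearMap.snd ℝ ℂ ℂ)
  let i2 : (ℂ × ℂ) →L[ℝ] ℝ := Complex.imCLM.comp (ContinuousLinearMap.snd ℝ ℂ ℂ)
  (ContinuousLinearMap.mul ℝ ℝ).bilinearComp r1 i1 -
    (ContinuousLinearMap.mul ℝ ℝ).bilinearComp i1 r1 +
    ((ContinuousLinearMap.mul ℝ ℝ).bilinearComp r2 i2 -
    (ContinuousLinearMap.mul ℝ ℝ).bilinearComp i2 r2)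

lemma Om_apply (v w : ℂ × ℂ) :
    Om v w = v.1.re * w.1.im - v.1.im * w.1.re + (v.2.re * w.2.im - v.2.im * w.2.re) := rfl

variable (Λ : AddSubgroup (ℂ × ℂ)) [DiscreteTopology Λ]

lemma formInChart_torus (p : Torus Λ) (y : ℂ × ℂ) :
    formInChart (V := ℂ × ℂ) (M := Torus Λ) (fun _ => Om) p y = Om := by
  unfold formInChart
  simp only [Torus.mfderiv_extChartAt_symm]
  ext v w <;> rfl

/-- the flat Kähler form of the torus -/
noncomputable def kahlerTorus : KahlerForm (ℂ × ℂ) (Torus Λ) where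
  form := fun _ => Om
  alternating := by
    intro p v
    have h : ∀ v : ℂ × ℂ, Om v v = 0 := by
      intro v
      rw [Om_apply]; ring
    exact h v
  type_one_one := by
    intro p v w
    have h : ∀ v w : ℂ × ℂ, Om (Complex.I • v) (Complex.I • w) = Om v w := by
      intro v w
      simp only [Om_apply, Prod.smul_fst, Prod.smul_snd, smul_eq_mul, Complex.mul_re,
        Complex.mul_im, Complex.I_re, Complex.I_im]
      ring
    exact h v w
  positive := by
    intro p v hv
    have h : ∀ v : ℂ × ℂ, v ≠ 0 → 0 < Om v (Complex.I • v) := by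
      intro v hv
      simp only [Om_apply, Prod.smul_fst, Prod.smul_snd, smul_eq_mul, Complex.mul_re,
        Complex.mul_im, Complex.I_re, Complex.I_im]
      have h1 : v.1 ≠ 0 ∨ v.2 ≠ 0 := by
        by_contra hcon
        push Not at hcon
        exact hv (Prod.ext hcon.1 hcon.2)
      have h2 : ∀ z : ℂ, z ≠ 0 → 0 < z.re * z.re + z.im * z.im := by
        intro z hz
        rw [← Complex.normSq_apply]
        exact Complex.normSq_pos.2 hz
      have h3 : ∀ z : ℂ, 0 ≤ z.re * z.re + z.im * z.im := by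
        intro z
        rw [← Complex.normSq_apply]
        exact Complex.normSq_nonneg z
      rcases h1 with h1 | h1
      · have := h2 _ h1
        have := h3 v.2
        nlinarith
      · have := h2 _ h1
        have := h3 v.1
        nlinarith
    exact h v hv
  smooth := by
    intro p
    have : formInChart (V := ℂ × ℂ) (M := Torus Λ) (fun _ => Om) p = fun _ => Om := by
      ext1 y
      exact formInChart_torus Λ p y
    rw [this]
    exact contDiffOn_const
  closed := by
    intro p y _ a b c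
    have : formInChart (V := ℂ × ℂ) (M := Torus Λ) (fun _ => Om) p = fun _ => Om := by
      ext1 y
      exact formInChart_torus Λ p y
    rw [this]
    simp

/-- the coordinates of a product with the trivial group -/
noncomputable def cartanTorus :
    CartanGeometry (ℂ × ℂ) PUnit (ℂ × ℂ) (Torus Λ) (ℂ × ℂ) (Torus Λ) trivialHom where
  π := id
  act := fun e _ => e
  π_holomorphic := contMDiff_id
  act_holomorphic := contMDiff_fst
  act_one := fun _ => rfl
  act_mul := fun _ _ _ => rfl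
  locally_trivial := by
    intro x
    refine ⟨univ, (Homeomorph.prodPUnit (Torus Λ)).toOpenPartialHomeomorph, isOpen_univ,
      mem_univ _, by simp, by simp, contMDiff_fst.contMDiffOn, ?_, ?_, ?_⟩
    · exact (contMDiff_id.prodMk contMDiff_const).contMDiffOn
    · intro u _ a
      rfl
    · intro u _ a b
      rfl
  form := fun _ => ContinuousLinearMap.id ℂ (ℂ × ℂ)
  form_holomorphic := Torus.contMDiff_snd Λ
  form_bijective := fun _ => Function.bijective_id
  form_act := by
    intro h e v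
    have h1 : mfderiv 𝓘(ℂ, ℂ × ℂ) 𝓘(ℂ, ℂ × ℂ) (fun e' : Torus Λ => e') e =
        ContinuousLinearMap.id ℂ _ := mfderiv_id
    have h2 : (fun x : AffG => (1 : AffG) * x * (1 : AffG)⁻¹) = id := by
      ext x <;> simp
    have h3 : Ad (ℂ × ℂ) (1 : AffG) = ContinuousLinearMap.id ℂ _ := by
      unfold Ad
      rw [h2, mfderiv_id]
    have h4 : (trivialHom h)⁻¹ = 1 := by simp [trivialHom]
    rw [h4, h3, h1]
    rfl
  form_fundamental := by
    intro e A
    have h1 : A = 0 := Subsingleton.elim (α := PUnit) _ _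
    rw [h1]
    simp only [map_zero]
    rfl

lemma compactSpace_quotient (Γ : Subgroup AffG)
    (h : CompactSpace ((⊤ : Subgroup AffG) ⧸ Γ.subgroupOf ⊤)) : CompactSpace (AffG ⧸ Γ) := by
  let f : ((⊤ : Subgroup AffG) ⧸ Γ.subgroupOf ⊤) → AffG ⧸ Γ :=
    Quotient.lift (fun g : (⊤ : Subgroup AffG) => (QuotientGroup.mk (g : AffG) : AffG ⧸ Γ)) (by
      intro a b hab
      have h4 : a⁻¹ * b ∈ Γ.subgroupOf ⊤ := QuotientGroup.leftRel_apply.1 hab
      rw [QuotientGroup.eq]
      simpa [Subgroup.mem_subgroupOf] using h4)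
  have hf : Continuous f :=
    Continuous.quotient_lift (QuotientGroup.continuous_mk.comp continuous_subtype_val) _
  have hs : Function.Surjective f := by
    intro q
    obtain ⟨g, rfl⟩ := QuotientGroup.mk_surjective q
    exact ⟨QuotientGroup.mk (⟨g, trivial⟩ : (⊤ : Subgroup AffG)), rfl⟩
  exact hs.compactSpace hf

theorem not_assertion : ¬ Assertion := by
  intro h
  let bb := Module.finBasis ℝ (ℂ × ℂ)
  let Λ := (Submodule.span ℤ (Set.range bb)).toAddSubgroup
  have : CompactSpace (Torus Λ) := compactSpace_torus bb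
  obtain ⟨G', Γ', x, -, ho, ⟨-, hd, hq⟩, -⟩ := h (ℂ × ℂ) AffG PUnit PUnit trivialHom (ℂ × ℂ) AffG 1
    (ℂ × ℂ) (Torus Λ) (ℂ × ℂ) (Torus Λ) isClosedComplexSubgroup_trivial isHomogeneousSpace_affG
    not_hasP1Factor_affG ⟨kahlerTorus Λ⟩ rfl ⟨cartanTorus Λ⟩
  have h1 : G' = ⊤ := AffG.eq_top_of_open_orbit G' x ho
  subst h1
  exact AffG.no_cocompact_discrete Γ' (compactSpace_quotient Γ' hq)

end Pool.Agent.H194R3.Cartan
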