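import Mathlib

set_option autoImplicit false

/-! # The Riemann sphere as a complex manifold -/

open scoped Manifold ContDiff Topology
open Set OnePoint Filter

namespace Pool.Agent.H194R3.Cartan

/-- The complex projective line `ℂ ∪ {∞}`, as a topological space the one point compactification
of `ℂ`. -/
def P1 : Type := OnePoint ℂ

namespace P1

instance : TopologicalSpace P1 := inferInstanceAs (TopologicalSpace (OnePoint ℂ))
instance : CompactSpace P1 := inferInstanceAs (CompactSpace (OnePoint ℂ))
instance : T2Space P1 := inferInstanceAs (T2Space (OnePoint ℂ))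
instance : ConnectedSpace P1 := inferInstanceAs (ConnectedSpace (OnePoint ℂ))

/-- the inclusion of `ℂ` -/
def coe (z : ℂ) : P1 := (z : OnePoint ℂ)

/-- the point at infinity -/
def inf : P1 := (∞ : OnePoint ℂ)

/-- The inversion `z ↦ 1 / z`, with `0 ↦ ∞` and `∞ ↦ 0`. -/
noncomputable def inversion (x : P1) : P1 :=
  OnePoint.elim (x : OnePoint ℂ) (coe 0) (fun z : ℂ => if z = 0 then inf else coe z⁻¹)

@[simp] lemma inversion_inf : inversion inf = coe 0 := rfl

lemma inversion_coe (z : ℂ) : inversion (coe z) = if z = 0 then inf else coe z⁻¹ := rfl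

@[simp] lemma inversion_zero : inversion (coe 0) = inf := by simp [inversion_coe]

lemma inversion_of_ne {z : ℂ} (hz : z ≠ 0) : inversion (coe z) = coe z⁻¹ := by
  simp [inversion_coe, hz]

lemma cases (x : P1) : x = inf ∨ ∃ z, x = coe z := by
  induction x using OnePoint.rec with
  | infty => exact Or.inl rfl
  | coe z => exact Or.inr ⟨z, rfl⟩

lemma inversion_inversion (x : P1) : inversion (inversion x) = x := by
  rcases cases x with rfl | ⟨z, rfl⟩
  · simp
  · by_cases hz : z = 0
    · subst hz; simp
    · rw [inversion_of_ne hz, inversion_of_ne (inv_ne_zero hz), inv_inv]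

lemma isOpenEmbedding_coe : Topology.IsOpenEmbedding coe := OnePoint.isOpenEmbedding_coe

lemma continuous_inversion : Continuous inversion := by
  rw [continuous_iff_continuousAt]
  intro x
  rcases cases x with rfl | ⟨z, rfl⟩
  · refine OnePoint.continuousAt_infty'.2 ?_
    change Tendsto (fun z : ℂ => inversion (coe z)) _ (𝓝 (coe 0))
    rw [Filter.coclosedCompact_eq_cocompact, ← Metric.cobounded_eq_cocompact]
    have h1 : Tendsto (fun z : ℂ => coe z⁻¹) (Bornology.cobounded ℂ) (𝓝 (coe 0)) :=
      (isOpenEmbedding_coe.continuous.tendsto 0).comp tendsto_inv₀_cobounded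
    refine h1.congr' ?_
    have h2 : ∀ᶠ z : ℂ in Bornology.cobounded ℂ, z ≠ 0 := by
      have h3 : ({0} : Set ℂ)ᶜ ∈ Bornology.cobounded ℂ :=
        Bornology.isBounded_singleton
      filter_upwards [h3] with z hz using hz
    filter_upwards [h2] with z hz
    exact (inversion_of_ne hz).symm
  · refine OnePoint.continuousAt_coe.2 ?_
    by_cases hz : z = 0
    · subst hz
      rw [continuousAt_iff_punctured_nhds]
      change Tendsto (fun z : ℂ => inversion (coe z)) _ (𝓝 (inversion (coe 0)))
      rw [inversion_zero]
      have h1 : Tendsto (fun z : ℂ => coe z⁻¹) (𝓝[≠] 0) (𝓝 inf) := by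
        have h2 : Tendsto coe (Filter.coclosedCompact ℂ) (𝓝 inf) := OnePoint.tendsto_coe_infty
        rw [Filter.coclosedCompact_eq_cocompact, ← Metric.cobounded_eq_cocompact] at h2
        exact h2.comp tendsto_inv₀_nhdsNE_zero
      refine (h1.congr' ?_)
      filter_upwards [self_mem_nhdsWithin] with z hz
      exact (inversion_of_ne hz).symm
    · have h1 : ContinuousAt (fun z : ℂ => coe z⁻¹) z :=
        isOpenEmbedding_coe.continuous.continuousAt.comp (continuousAt_inv₀ hz)
      refine h1.congr ?_
      filter_upwards [isOpen_ne.mem_nhds hz] with w hw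
      exact (inversion_of_ne hw).symm

/-- the inversion as a homeomorphism -/
noncomputable def inversionHomeo : P1 ≃ₜ P1 where
  toFun := inversion
  invFun := inversion
  left_inv := inversion_inversion
  right_inv := inversion_inversion
  continuous_toFun := continuous_inversion
  continuous_invFun := continuous_inversion

/-- The affine chart, defined on `ℂ`, the complement of `∞`: it is the inverse of the
inclusion. -/
noncomputable def chartZero : OpenPartialHomeomorph P1 ℂ :=
  (isOpenEmbedding_coe.toOpenPartialHomeomorph coe).symm

/-- The affine chart at infinity, defined on the complement of `0`: it is `z ↦ 1 / z`. -/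
noncomputable def chartInf : OpenPartialHomeomorph P1 ℂ :=
  inversionHomeo.toOpenPartialHomeomorph.trans chartZero

lemma chartZero_symm (z : ℂ) : chartZero.symm z = coe z := by simp [chartZero]

lemma chartZero_source : chartZero.source = range coe := by simp [chartZero]

lemma chartZero_target : chartZero.target = univ := by simp [chartZero]

lemma chartZero_coe (z : ℂ) : chartZero (coe z) = z := by
  have := chartZero.right_inv (x := z) (by simp [chartZero_target])
  rwa [chartZero_symm] at this

lemma chartInf_apply (x : P1) : chartInf x = chartZero (inversion x) := rfl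

lemma chartInf_symm (z : ℂ) : chartInf.symm z = inversion (coe z) := by
  have : chartInf.symm z = inversion (chartZero.symm z) := rfl
  rw [this, chartZero_symm]

lemma mem_chartInf_source (x : P1) : x ∈ chartInf.source ↔ inversion x ∈ range coe := by
  simp [chartInf, chartZero_source, inversionHomeo]

open Classical in
noncomputable instance : ChartedSpace ℂ P1 where
  atlas := {chartZero, chartInf}
  chartAt x := if x = inf then chartInf else chartZero
  mem_chart_source x := by
    rcases cases x with rfl | ⟨z, rfl⟩
    · simp only [if_true]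
      rw [mem_chartInf_source]
      exact ⟨0, by simp⟩
    · have : coe z ≠ inf := OnePoint.coe_ne_infty z
      rw [if_neg this, chartZero_source]
      exact ⟨z, rfl⟩
  chart_mem_atlas x := by
    by_cases h : x = inf <;> simp [h]

lemma coe_ne_inf (z : ℂ) : coe z ≠ inf := OnePoint.coe_ne_infty z

lemma contDiffOn_transition {z : ℂ} (hz : inversion (coe z) ∈ range coe) :
    ContDiffAt ℂ ω (fun w => chartZero (inversion (coe w))) z := by
  have hz0 : z ≠ 0 := by
    rintro rfl
    obtain ⟨w, hw⟩ := hz
    rw [inversion_zero] at hw
    exact coe_ne_inf w hw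
  have h1 : ContDiffAt ℂ ω (fun w : ℂ => w⁻¹) z := contDiffAt_inv ℂ hz0
  refine h1.congr_of_eventuallyEq ?_
  filter_upwards [isOpen_ne.mem_nhds hz0] with w hw
  rw [inversion_of_ne hw, chartZero_coe]

instance : IsManifold 𝓘(ℂ, ℂ) ω P1 := by
  apply isManifold_of_contDiffOn
  intro e e' he he' v hv
  have key : ∀ e : OpenPartialHomeomorph P1 ℂ, ContDiffOn ℂ ω (fun x => e (e.symm x)) e.target := by
    intro e
    exact contDiffOn_id.congr (fun x hx => e.right_inv hx)
  simp only [modelWithCornersSelf_coe, modelWithCornersSelf_coe_symm, preimage_id_eq, id_eq,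
    range_id, inter_univ, OpenPartialHomeomorph.coe_trans, Function.comp_def] at hv ⊢
  rcases he with rfl | he <;> rcases he' with rfl | he'
  · exact (key _ _ hv.1).mono (fun x hx => hx.1)
  · rcases he' with rfl
    have h1 := hv.2
    rw [mem_preimage, OpenPartialHomeomorph.symm_symm, chartZero_symm, mem_chartInf_source] at h1
    have h2 : (fun x => chartInf (chartZero.symm x)) = fun x => chartZero (inversion (coe x)) := by
      ext x; rw [chartZero_symm, chartInf_apply]
    rw [h2]
    exact (contDiffOn_transition h1).contDiffWithinAt
  · rcases he with rfl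
    have h1 := hv.2
    rw [mem_preimage, OpenPartialHomeomorph.symm_symm, chartInf_symm, chartZero_source] at h1
    have h2 : (fun x => chartZero (chartInf.symm x)) = fun x => chartZero (inversion (coe x)) := by
      ext x; rw [chartInf_symm]
    rw [h2]
    exact (contDiffOn_transition h1).contDiffWithinAt
  · rcases he with rfl
    rcases he' with rfl
    exact (key _ _ hv.1).mono (fun x hx => hx.1)

end P1

end Pool.Agent.H194R3.Cartan
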