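import Pool.Agent.H194R3.Cartan.Defs
import Pool.Agent.H194R3.Cartan.P1

set_option autoImplicit false

/-! # The assertion of the question -/

open scoped Manifold ContDiff Topology
open Set

namespace Pool.Agent.H194R3.Cartan

/-- The complex manifold `X` is biholomorphic to a product `P¹ × Y`, for some complex
manifold `Y` (homogeneous or not). -/
def HasP1Factor (𝔵 : Type) [NormedAddCommGroup 𝔵] [NormedSpace ℂ 𝔵] (X : Type)
    [TopologicalSpace X] [ChartedSpace 𝔵 X] : Prop :=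
  ∃ (𝔶 : Type) (_ : NormedAddCommGroup 𝔶) (_ : NormedSpace ℂ 𝔶)
    (Y : Type) (_ : TopologicalSpace Y) (_ : ChartedSpace 𝔶 Y) (_ : IsManifold 𝓘(ℂ, 𝔶) ω Y),
    Nonempty (Diffeomorph 𝓘(ℂ, 𝔵) (𝓘(ℂ, ℂ).prod 𝓘(ℂ, 𝔶)) X (P1 × Y) ω)

/-- The assertion of the question, in the special case that `G` is connected and the homogeneous
space `X = G/H` is simply connected (and with the assumption that `X` is not biholomorphic to a
product of `P¹` with any complex manifold, homogeneous or not): if `M` is a compact connected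
Kähler manifold with a holomorphic Cartan geometry modelled on `X = G/H`, where
`dim M = dim X`, then there are a closed subgroup `G'` of `G` with an open orbit `U'` in `X` and a
cocompact lattice `Γ'` in `G'` such that `M` is biholomorphic to `Γ'\U'`. -/
def Assertion : Prop :=
  ∀ (𝔤 : Type) [NormedAddCommGroup 𝔤] [NormedSpace ℂ 𝔤] [FiniteDimensional ℂ 𝔤]
    (G : Type) [TopologicalSpace G] [T2Space G] [SecondCountableTopology G] [ConnectedSpace G]
    [ChartedSpace 𝔤 G] [Group G] [LieGroup 𝓘(ℂ, 𝔤) ω G]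
    (𝔥 : Type) [NormedAddCommGroup 𝔥] [NormedSpace ℂ 𝔥] [FiniteDimensional ℂ 𝔥]
    (H : Type) [TopologicalSpace H] [T2Space H] [SecondCountableTopology H]
    [ChartedSpace 𝔥 H] [Group H] [LieGroup 𝓘(ℂ, 𝔥) ω H]
    (ι : H →* G)
    (𝔵 : Type) [NormedAddCommGroup 𝔵] [NormedSpace ℂ 𝔵] [FiniteDimensional ℂ 𝔵]
    (X : Type) [TopologicalSpace X] [T2Space X] [SecondCountableTopology X]
    [SimplyConnectedSpace X] [ChartedSpace 𝔵 X] [IsManifold 𝓘(ℂ, 𝔵) ω X] [MulAction G X] (x₀ : X)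
    (𝔪 : Type) [NormedAddCommGroup 𝔪] [NormedSpace ℂ 𝔪] [FiniteDimensional ℂ 𝔪]
    (M : Type) [TopologicalSpace M] [T2Space M] [SecondCountableTopology M]
    [CompactSpace M] [ConnectedSpace M] [ChartedSpace 𝔪 M] [IsManifold 𝓘(ℂ, 𝔪) ω M]
    (𝔢 : Type) [NormedAddCommGroup 𝔢] [NormedSpace ℂ 𝔢] [FiniteDimensional ℂ 𝔢]
    (E : Type) [TopologicalSpace E] [T2Space E] [SecondCountableTopology E]
    [ChartedSpace 𝔢 E] [IsManifold 𝓘(ℂ, 𝔢) ω E],
    IsClosedComplexSubgroup 𝔤 𝔥 ι →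
    IsHomogeneousSpace 𝔤 𝔵 ι x₀ →
    ¬ HasP1Factor 𝔵 X →
    Nonempty (KahlerForm 𝔪 M) →
    Module.finrank ℂ 𝔪 = Module.finrank ℂ 𝔵 →
    Nonempty (CartanGeometry 𝔤 𝔥 𝔪 M 𝔢 E ι) →
    ∃ (G' Γ' : Subgroup G) (x : X), IsClosed (G' : Set G) ∧ IsOpen (MulAction.orbit G' x) ∧
      IsCocompactLattice G' Γ' ∧
      IsBiholomorphicToQuotient 𝔵 X 𝔪 M Γ' (MulAction.orbit G' x)

end Pool.Agent.H194R3.Cartan
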